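import Pool.Agent.Q165.JacDef
import Pool.Agent.Q165.JacMain

set_option autoImplicit false

/-!
# Bases of the Jacobian matroid of a pair of graphs

Over a field of characteristic zero, and over a field of sufficiently large characteristic, the
pair `(G, H)` has the basis property exactly when both graphs are vertex-disjoint unions of cycles
of odd length.
-/

namespace Pool.Agent.Results.MP_305ad1_co.OddCycles

open Q165.JacMat

universe u

theorem result (n m : ℕ) (hn : 3 ≤ n) (hm : 3 ≤ m) :
    (∀ (F : Type u) [Field F] [CharZero F] (G : SimpleGraph (Fin n)) (H : SimpleGraph (Fin m)),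
      (∀ v, ∃ w, G.Adj v w) → (∀ v, ∃ w, H.Adj v w) →
        (BasisProperty F G H ↔ IsUnionOfOddCycles G ∧ IsUnionOfOddCycles H)) ∧
    (∃ N : ℕ, ∀ (F : Type u) [Field F] (r : ℕ) [CharP F r], N < r →
      ∀ (G : SimpleGraph (Fin n)) (H : SimpleGraph (Fin m)),
      (∀ v, ∃ w, G.Adj v w) → (∀ v, ∃ w, H.Adj v w) →
        (BasisProperty F G H ↔ IsUnionOfOddCycles G ∧ IsUnionOfOddCycles H)) := by
  obtain ⟨N, hN⟩ := goodField_exists.{u} n m
  refine ⟨?_, N, ?_⟩
  · intro F _ _ G H hG hH
    exact basisProperty_iff F hn hm (hN F 0 (Or.inl rfl)) G H hG hH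
  · intro F _ r _ hr G H hG hH
    exact basisProperty_iff F hn hm (hN F r (Or.inr hr)) G H hG hH

end Pool.Agent.Results.MP_305ad1_co.OddCycles
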